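import Pool.Agent.MP_3ce0a0_al.H79.SpecS

/-
Maps commuting with most transpositions keep the sign.
-/

namespace Pool.Agent.MP_3ce0a0_al.H60

open Equiv Pool.Agent.MP_3ce0a0_al.H79

section
variable {ι H Ω : Type} [DecidableEq ι] [AddCommGroup H] [Module ℂ H]

/-- one factor. -/
noncomputable def op (Q : WS ι (H ≃ₗ[ℂ] H)) (η : ℂ) (p q : ι) (h : H) : H :=
  h - η • Q.π (swap p q) h

/-- killed by all products of `m` factors on disjoint pairs of `R`. -/
def Kill (Q : WS ι (H ≃ₗ[ℂ] H)) (η : ℂ) : ℕ → Finset ι → H → Prop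
  | 0, _, h => h = 0
  | m + 1, R, h => ∀ p ∈ R, ∀ q ∈ R, p ≠ q → Kill Q η m ((R.erase p).erase q) (op Q η p q h)

theorem kill_sub (Q : WS ι (H ≃ₗ[ℂ] H)) (η : ℂ) (m : ℕ) :
    ∀ (R : Finset ι) (h h' : H), Kill Q η m R h → Kill Q η m R h' → Kill Q η m R (h - h') := by
  induction m with
  | zero =>
    intro R h h' h1 h2
    simp only [Kill] at h1 h2 ⊢
    rw [h1, h2, sub_zero]
  | succ m ih =>
    intro R h h' h1 h2 p hp q hq hpq
    have e : op Q η p q (h - h') = op Q η p q h - op Q η p q h' := by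
      simp only [op, map_sub, smul_sub]
      abel
    rw [e]
    exact ih _ _ _ (h1 p hp q hq hpq) (h2 p hp q hq hpq)

theorem kill_comm (Q : WS ι (H ≃ₗ[ℂ] H)) (η : ℂ) (u : H ≃ₗ[ℂ] H) (m : ℕ) :
    ∀ (R : Finset ι) (h : H), (∀ p ∈ R, ∀ q ∈ R, Commute u (Q.π (swap p q))) →
      Kill Q η m R h → Kill Q η m R (u h) := by
  induction m with
  | zero =>
    intro R h _ h1
    simp only [Kill] at h1 ⊢
    rw [h1, map_zero]
  | succ m ih =>
    intro R h hc h1 p hp q hq hpq
    have e0 : Q.π (swap p q) (u h) = u (Q.π (swap p q) h) := by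
      have := congrArg (fun f : H ≃ₗ[ℂ] H => f h) (hc p hp q hq).eq
      simpa using this.symm
    have e : op Q η p q (u h) = u (op Q η p q h) := by
      simp only [op, map_sub, map_smul, e0]
    rw [e]
    refine ih _ _ (fun a ha b hb => hc a ?_ b ?_) (h1 p hp q hq hpq)
    · exact Finset.mem_of_mem_erase (Finset.mem_of_mem_erase ha)
    · exact Finset.mem_of_mem_erase (Finset.mem_of_mem_erase hb)

theorem pi_swap_swap (P : WS ι (Perm Ω)) (p q : ι) (ω : Ω) :
    P.π (swap p q) (P.π (swap p q) ω) = ω := by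
  rw [← Perm.mul_apply, ← map_mul, swap_mul_self, map_one, Perm.one_apply]

theorem j_op {Q : WS ι (H ≃ₗ[ℂ] H)} {P : WS ι (Perm Ω)} {j : H →ₗ[ℂ] (Ω → ℂ)}
    (hE : Emb Q P j) (η : ℂ) (p q : ι) (h : H) (ω : Ω) :
    j (op Q η p q h) ω = j h ω - η * j h (P.π (swap p q) ω) := by
  have := hE.2.1 (swap p q) h (P.π (swap p q) ω)
  rw [pi_swap_swap] at this
  simp only [op, map_sub, map_smul, Pi.sub_apply, Pi.smul_apply, smul_eq_mul, this]

theorem sg_shift {P : WS ι (Perm Ω)} {s : Ω → Finset ι}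
    (hs : ∀ σ ω, s (P.π σ ω) = (s ω).map σ.toEmbedding) {θ : ℂ} {y : Ω → ℂ} (hy : Sg P s θ y)
    (σ : Perm ι) : Sg P s θ fun ω => y (P.π σ ω) := by
  intro ω a b hab ha hb
  have e : P.π σ (P.π (swap a b) ω) = P.π (swap (σ a) (σ b)) (P.π σ ω) := by
    rw [← Perm.mul_apply, ← map_mul, ← Perm.mul_apply, ← map_mul, mul_swap_eq_swap_mul]
  show y (P.π σ (P.π (swap a b) ω)) = θ * y (P.π σ ω)
  rw [e]
  refine hy _ _ _ (fun h => hab (σ.injective h)) ?_ ?_
  · rw [hs]
    simpa using ha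
  · rw [hs]
    simpa using hb

theorem sg_op {Q : WS ι (H ≃ₗ[ℂ] H)} {P : WS ι (Perm Ω)} {j : H →ₗ[ℂ] (Ω → ℂ)}
    (hE : Emb Q P j) {s : Ω → Finset ι} (hs : ∀ σ ω, s (P.π σ ω) = (s ω).map σ.toEmbedding)
    {θ : ℂ} (η : ℂ) (p q : ι) {h : H} (hy : Sg P s θ (j h)) : Sg P s θ (j (op Q η p q h)) := by
  intro ω a b hab ha hb
  have h1 := hy ω a b hab ha hb
  have h2 := sg_shift hs hy (swap p q) ω a b hab ha hb
  simp only at h2
  rw [j_op hE, j_op hE, h1, h2]
  ring

theorem mem_swap {P : WS ι (Perm Ω)} {s : Ω → Finset ι}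
    (hs : ∀ σ ω, s (P.π σ ω) = (s ω).map σ.toEmbedding) (p q x : ι) (ω : Ω) :
    x ∈ s (P.π (swap p q) ω) ↔ swap p q x ∈ s ω := by
  rw [hs]
  simp only [Finset.mem_map_equiv, symm_swap]

theorem card_swap {P : WS ι (Perm Ω)} {s : Ω → Finset ι}
    (hs : ∀ σ ω, s (P.π σ ω) = (s ω).map σ.toEmbedding) {R : Finset ι} {p q : ι} (hp : p ∈ R)
    (hq : q ∈ R) (ω : Ω) : (s (P.π (swap p q) ω) ∩ R).card = (s ω ∩ R).card := by
  have hR : ∀ x, swap p q x ∈ R ↔ x ∈ R := by
    intro x
    by_cases h1 : x = p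
    · subst h1
      simp [hp, hq]
    · by_cases h2 : x = q
      · subst h2
        simp [hp, hq]
      · rw [swap_apply_of_ne_of_ne h1 h2]
  have : s (P.π (swap p q) ω) ∩ R = (s ω ∩ R).map (swap p q).toEmbedding := by
    ext x
    simp only [Finset.mem_inter, mem_swap hs, Finset.mem_map_equiv, symm_swap, hR]
  rw [this, Finset.card_map]

theorem card_drop {S R : Finset ι} {p q : ι} (hp : p ∈ R) (hq : q ∈ R) (h : p ∈ S ∨ q ∈ S) :
    (S ∩ (R.erase p).erase q).card < (S ∩ R).card := by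
  refine Finset.card_lt_card ⟨fun x hx => ?_, fun hc => ?_⟩
  · simp only [Finset.mem_inter, Finset.mem_erase] at hx ⊢
    exact ⟨hx.1, hx.2.2.2⟩
  · rcases h with h | h
    · have := hc (Finset.mem_inter.2 ⟨h, hp⟩)
      simp at this
    · have := hc (Finset.mem_inter.2 ⟨h, hq⟩)
      simp at this

theorem kill_of_sg {Q : WS ι (H ≃ₗ[ℂ] H)} {P : WS ι (Perm Ω)} {j : H →ₗ[ℂ] (Ω → ℂ)}
    (hE : Emb Q P j) {s : Ω → Finset ι} (hs : ∀ σ ω, s (P.π σ ω) = (s ω).map σ.toEmbedding)
    {η : ℂ} (hη : η * η = 1) (m : ℕ) :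
    ∀ (R : Finset ι) (h : H), Sg P s η (j h) → (∀ ω, j h ω ≠ 0 → (s ω ∩ R).card < m) →
      Kill Q η m R h := by
  induction m with
  | zero =>
    intro R h _ hc
    show h = 0
    apply hE.1
    rw [map_zero]
    funext ω
    by_contra hne
    exact absurd (hc ω hne) (Nat.not_lt_zero _)
  | succ m ih =>
    intro R h hy hc p hp q hq hpq
    refine ih _ _ (sg_op hE hs η p q hy) fun ω hω => ?_
    rw [j_op hE] at hω
    have h1 : p ∈ s ω ∨ q ∈ s ω := by
      by_contra hn
      rw [not_or] at hn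
      apply hω
      rw [hy ω p q hpq hn.1 hn.2, ← mul_assoc, hη, one_mul, sub_self]
    have h2 : (s ω ∩ R).card < m + 1 := by
      by_cases h0 : j h ω = 0
      · rw [← card_swap hs hp hq ω]
        refine hc _ fun h3 => hω ?_
        rw [h0, h3, mul_zero, sub_zero]
      · exact hc ω h0
    have := card_drop hp hq h1
    omega

theorem card_rest {R : Finset ι} {p q : ι} {m : ℕ} (h : 2 * (m + 1) + 1 ≤ R.card) :
    2 * m + 1 ≤ ((R.erase p).erase q).card := by
  have h1 := Finset.pred_card_le_card_erase (s := R) (a := p)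
  have h2 := Finset.pred_card_le_card_erase (s := R.erase p) (a := q)
  omega

theorem zero_of_kill {Q : WS ι (H ≃ₗ[ℂ] H)} {P : WS ι (Perm Ω)} {j : H →ₗ[ℂ] (Ω → ℂ)}
    (hE : Emb Q P j) {s : Ω → Finset ι} (hs : ∀ σ ω, s (P.π σ ω) = (s ω).map σ.toEmbedding)
    {η : ℂ} (hη : η * η = 1) (m : ℕ) :
    ∀ (R : Finset ι) (h : H), Sg P s (-η) (j h) → Kill Q η m R h → 2 * m + 1 ≤ R.card →
      ∀ ω, (s ω ∩ R).card ≤ m → j h ω = 0 := by
  induction m with
  | zero =>
    intro R h _ hk _ ω _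
    have : h = 0 := hk
    rw [this, map_zero]
    rfl
  | succ m ih =>
    intro R h hy hk hR ω hω
    have key : ∀ p ∈ R, ∀ q ∈ R, p ≠ q → ∀ ω', (s ω' ∩ (R.erase p).erase q).card ≤ m →
        j h ω' = η * j h (P.π (swap p q) ω') := by
      intro p hp q hq hpq ω' hc
      have := ih _ _ (sg_op hE hs η p q hy) (hk p hp q hq hpq) (card_rest hR) ω' hc
      rw [j_op hE] at this
      exact sub_eq_zero.1 this
    have hsd : 1 < (R \ s ω).card := by
      have := Finset.card_sdiff_add_card_inter R (s ω)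
      rw [Finset.inter_comm] at this
      omega
    obtain ⟨p, hp, q, hq, hpq⟩ := Finset.one_lt_card.1 hsd
    rw [Finset.mem_sdiff] at hp hq
    by_cases he : (s ω ∩ R).card ≤ m
    · have h1 := key p hp.1 q hq.1 hpq ω (le_trans (Finset.card_le_card fun x hx => by
        simp only [Finset.mem_inter, Finset.mem_erase] at hx ⊢
        exact ⟨hx.1, hx.2.2.2⟩) he)
      rw [hy ω p q hpq hp.2 hq.2] at h1
      linear_combination (1 / 2 : ℂ) * h1 - (1 / 2 : ℂ) * j h ω * hη
    · obtain ⟨t, ht⟩ : (s ω ∩ R).Nonempty := Finset.card_pos.1 (by omega)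
      rw [Finset.mem_inter] at ht
      have htp : t ≠ p := fun e => hp.2 (e ▸ ht.1)
      have htq : t ≠ q := fun e => hq.2 (e ▸ ht.1)
      have h1 := key t ht.2 p hp.1 htp ω (by
        have := card_drop (S := s ω) ht.2 hp.1 (Or.inl ht.1)
        omega)
      have h2 := key t ht.2 q hq.1 htq ω (by
        have := card_drop (S := s ω) ht.2 hq.1 (Or.inl ht.1)
        omega)
      have h3 := key p hp.1 q hq.1 hpq (P.π (swap t p) ω) (by
        have hm : p ∈ s (P.π (swap t p) ω) := by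
          rw [mem_swap hs, swap_apply_right]
          exact ht.1
        have h4 := card_drop (S := s (P.π (swap t p) ω)) hp.1 hq.1 (Or.inl hm)
        rw [card_swap hs ht.2 hp.1] at h4
        omega)
      have e : P.π (swap p q) (P.π (swap t p) ω) = P.π (swap t q) (P.π (swap p q) ω) := by
        rw [← Perm.mul_apply, ← map_mul, ← Perm.mul_apply, ← map_mul, mul_swap_eq_swap_mul,
          swap_apply_left, swap_apply_of_ne_of_ne htp htq]
      have h4 := sg_shift hs hy (swap t q) ω p q hpq hp.2 hq.2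
      simp only at h4
      rw [e, h4] at h3
      rw [h3] at h1
      linear_combination (1 / 2 : ℂ) * h1 + (1 / 2 : ℂ) * h2 -
        (1 / 2 : ℂ) * η * j h (P.π (swap t q) ω) * hη

end

theorem sbar : SBar := by
  intro ι H Ω _ _ _ _ Q P j k s hE hS hk hsp η hη u a b hu h hy
  have hs := hS.2.2.2.1
  have hη2 : η * η = 1 := by
    rcases hη with rfl | rfl <;> norm_num
  obtain ⟨g', hg'⟩ := hsp (u h)
  set R : Finset ι := (Finset.univ.erase a).erase b with hR
  have hcard : 2 * k + 1 ≤ R.card := card_rest (by rw [Finset.card_univ]; omega)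
  have hsm : ∀ ω, (s ω ∩ R).card < k := fun ω =>
    lt_of_le_of_lt (Finset.card_le_card Finset.inter_subset_left) (hS.1 ω)
  have hback : ∀ ω c e, c ≠ e → c ∉ s ω → e ∉ s ω → j g' (P.π (swap c e) ω) = j (u h) ω := by
    intro ω c e hce hc he
    rw [hg' _ c e hce, pi_swap_swap]
    · rw [mem_swap hs, swap_apply_left]
      exact he
    · rw [mem_swap hs, swap_apply_right]
      exact hc
  have k0 : Kill Q η k R (u h) := by
    refine kill_comm Q η u k R h (fun p hp q hq => ?_) (kill_of_sg hE hs hη2 k R h hy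
      fun ω _ => hsm ω)
    simp only [hR, Finset.mem_erase] at hp hq
    exact hu p q hp.2.1 hp.1 hq.2.1 hq.1
  have s1 : Sg P s η (j (u h + η • g')) := by
    intro ω c e hce hc he
    simp only [map_add, map_smul, Pi.add_apply, Pi.smul_apply, smul_eq_mul]
    rw [hback ω c e hce hc he, ← hg' ω c e hce hc he]
    linear_combination (-j g' ω) * hη2
  have s2 : Sg P s (-η) (j (u h - η • g')) := by
    intro ω c e hce hc he
    simp only [map_sub, map_smul, Pi.sub_apply, Pi.smul_apply, smul_eq_mul]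
    rw [hback ω c e hce hc he, ← hg' ω c e hce hc he]
    linear_combination (-j g' ω) * hη2
  have k1 := kill_of_sg hE hs hη2 k R _ s1 fun ω _ => hsm ω
  have k2 : Kill Q η k R (u h - η • g') := by
    have := kill_sub Q η k R _ _ k0 (kill_sub Q η k R _ _ k1 k0)
    rwa [add_sub_cancel_left] at this
  intro ω c e hce hc he
  have h0 := zero_of_kill hE hs hη2 k R _ s2 k2 hcard ω (hsm ω).le
  simp only [map_sub, map_smul, Pi.sub_apply, Pi.smul_apply, smul_eq_mul] at h0
  rw [← hg' ω c e hce hc he]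
  linear_combination (-η) * h0 - j g' ω * hη2

end Pool.Agent.MP_3ce0a0_al.H60
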